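import Pool.Agent.H19.LG.Defs
import Pool.Agent.H19.Cub.CovEmb

/-!
# From right-angled Coxeter groups to one-vertex cube complexes

The universal cover of the one-vertex complex `star Q x` is the Davis complex of the right-angled
Coxeter group of the graph on the labels at `x`.
-/

set_option autoImplicit false
set_option linter.unusedSectionVars false

open Finset

namespace Pool.Agent.H85.LG

open Pool.Agent.H19.Cub Pool.Agent.H19.LG

variable {V X : Type} [DecidableEq V] [Fintype V]

/-- the graph on the labels at `x` -/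
abbrev lkG (Q : CubeComplex V X) (x : X) : SimpleGraph {v // v ∈ Q.lab x} :=
  Q.graph.comap (Subtype.val : {v // v ∈ Q.lab x} → V)

/-- the generator of a label -/
private noncomputable def gm (Q : CubeComplex V X) (x : X) (v : V) :
    Pool.Agent.H4.Singer.RGrp (lkG Q x) :=
  if h : v ∈ Q.lab x then Pool.Agent.H4.Singer.gen (lkG Q x) ⟨v, h⟩ else 1

private theorem gm_sq (Q : CubeComplex V X) (x : X) (v : V) : gm Q x v * gm Q x v = 1 := by
  unfold gm
  split_ifs
  · exact Pool.Agent.H4.Singer.l2h_gen_sq _ _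
  · exact one_mul 1

private theorem gm_comm (Q : CubeComplex V X) (x : X) {u v : V} (h : Q.graph.Adj u v) :
    gm Q x u * gm Q x v = gm Q x v * gm Q x u := by
  unfold gm
  split_ifs
  · exact Pool.Agent.H4.Singer.l2h_gen_comm _ _ _ h
  all_goals simp

private noncomputable def wm (Q : CubeComplex V X) (x : X) (l : List V) :
    Pool.Agent.H4.Singer.RGrp (lkG Q x) := (l.map (gm Q x)).prod

private theorem wm_step (Q : CubeComplex V X) (x : X) {l l' : List V} (h : Step Q.graph l l') :
    wm Q x l = wm Q x l' := by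
  cases h with
  | back a b v =>
    simp only [wm, List.map_append, List.map_cons, List.prod_append, List.prod_cons]
    rw [← mul_assoc (gm Q x v), gm_sq, one_mul]
  | square a b u v h =>
    simp only [wm, List.map_append, List.map_cons, List.prod_append, List.prod_cons]
    rw [← mul_assoc (gm Q x u), gm_comm Q x h, mul_assoc (gm Q x v)]

/-- the element of the Coxeter group -/
private noncomputable def el (Q : CubeComplex V X) (x : X) :
    (star Q x).Cover () → Pool.Agent.H4.Singer.RGrp (lkG Q x) :=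
  Quot.lift (fun l => wm Q x l.1) fun _ _ h => wm_step Q x h

private theorem el_nb (Q : CubeComplex V X) (x : X) (v : {v // v ∈ Q.lab x})
    (c : (star Q x).Cover ()) :
    el Q x ((star Q x).nbc () v.1 c) = el Q x c * Pool.Agent.H4.Singer.gen (lkG Q x) v := by
  induction c using Quot.ind with
  | mk l =>
    rw [(star Q x).nbc_mk () v.1 l v.2]
    show wm Q x (l.1 ++ [v.1]) = wm Q x l.1 * _
    simp only [wm, List.map_append, List.prod_append, List.map_cons, List.map_nil, List.prod_cons,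
      List.prod_nil, mul_one]
    congr 1
    unfold gm
    rw [dif_pos v.2]

/-- the vertices of the universal cover are the elements of the Coxeter group -/
private theorem exists_equiv (Q : CubeComplex V X) (x : X) :
    ∃ e : Pool.Agent.H4.Singer.RGrp (lkG Q x) ≃ (star Q x).Cover (),
      ∀ (v : {v // v ∈ Q.lab x}) (w : Pool.Agent.H4.Singer.RGrp (lkG Q x)),
        e (w * Pool.Agent.H4.Singer.gen (lkG Q x) v) = (star Q x).nbc () v.1 (e w) := by
  let C := (star Q x).cover ()
  let f : {v // v ∈ Q.lab x} → Equiv.Perm ((star Q x).Cover ()) := fun v =>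
    ⟨C.nb v.1, C.nb v.1, fun c => C.nb_nb v.1 c v.2, fun c => C.nb_nb v.1 c v.2⟩
  obtain ⟨Φ, hΦ⟩ := Pool.Agent.H4.Singer.exists_lift (lkG Q x) f
    (fun v => Equiv.ext fun c => C.nb_nb v.1 c v.2)
    (fun u v huv => Equiv.ext fun c => C.nb_comm u.1 v.1 c huv u.2 v.2)
  have h0 : (star Q x).IsPath () [] := trivial
  obtain ⟨b0, hb0⟩ : ∃ b0 : (star Q x).Cover (), b0 = Quot.mk _ ⟨[], h0⟩ := ⟨_, rfl⟩
  have hinv : ∀ v, (Pool.Agent.H4.Singer.gen (lkG Q x) v)⁻¹ =
      Pool.Agent.H4.Singer.gen (lkG Q x) v := fun v =>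
    inv_eq_of_mul_eq_one_left (Pool.Agent.H4.Singer.l2h_gen_sq (lkG Q x) v)
  have hstep : ∀ v w, Φ ((w * Pool.Agent.H4.Singer.gen (lkG Q x) v)⁻¹) b0 =
      (star Q x).nbc () v.1 (Φ w⁻¹ b0) := by
    intro v w
    rw [mul_inv_rev, map_mul, hinv, hΦ]
    rfl
  -- surjectivity
  have key : ∀ (l : List V) (hl : (star Q x).IsPath () l) (c : (star Q x).Cover ()),
      c = Quot.mk _ ⟨l, hl⟩ → c = Φ ((wm Q x l)⁻¹) b0 := by
    intro l
    induction l using List.reverseRecOn with
    | nil =>
      intro hl c hc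
      have h1 : wm Q x [] = 1 := rfl
      rw [h1, inv_one, map_one, hc, hb0]
      rfl
    | append_singleton l v ih =>
      intro hl c hc
      obtain ⟨hl1, hl2, -⟩ := ((star Q x).isPath_append () l [v]).1 hl
      have hv : v ∈ Q.lab x := hl2
      obtain ⟨c', hc'⟩ : ∃ c' : (star Q x).Cover (), c' = Quot.mk _ ⟨l, hl1⟩ := ⟨_, rfl⟩
      have h1 : (star Q x).nbc () v c' = c := by
        rw [hc, hc']
        exact (star Q x).nbc_mk () v ⟨l, hl1⟩ hl2
      have h2 : wm Q x (l ++ [v]) = wm Q x l * Pool.Agent.H4.Singer.gen (lkG Q x) ⟨v, hv⟩ := by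
        simp only [wm, List.map_append, List.prod_append, List.map_cons, List.map_nil,
          List.prod_cons, List.prod_nil, mul_one]
        congr 1
        unfold gm
        rw [dif_pos hv]
      rw [h2, hstep ⟨v, hv⟩, ← ih hl1 c' hc']
      exact h1.symm
  have hcov : ∀ c, Φ ((el Q x c)⁻¹) b0 = c := by
    intro c
    induction c using Quot.ind with
    | mk l => exact (key l.1 l.2 _ rfl).symm
  have hel : ∀ w, el Q x (Φ w⁻¹ b0) = w := by
    intro w
    have hw : w ∈ Subgroup.closure (Set.range (Pool.Agent.H4.Singer.gen (lkG Q x))) := by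
      have h1 := (Pool.Agent.H4.Singer.racg (lkG Q x)).toCoxeterSystem.subgroup_closure_range_simple
      have h2 : Set.range (Pool.Agent.H4.Singer.racg (lkG Q x)).toCoxeterSystem.simple =
          Set.range (Pool.Agent.H4.Singer.gen (lkG Q x)) := by
        congr 1
      rw [← h2, h1]
      exact Subgroup.mem_top w
    induction hw using Subgroup.closure_induction_right with
    | one =>
      rw [inv_one, map_one, hb0]
      rfl
    | mul_right w _ g hg ih =>
      obtain ⟨v, rfl⟩ := hg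
      rw [hstep, el_nb, ih]
    | mul_inv_cancel w _ g hg ih =>
      obtain ⟨v, rfl⟩ := hg
      rw [hinv, hstep, el_nb, ih]
  exact ⟨⟨fun w => Φ w⁻¹ b0, el Q x, hel, hcov⟩, fun v w => hstep v w⟩

/-- **The bridge.** -/
theorem star_l2 (Q : CubeComplex V X) (x : X) (i : ℕ)
    (h : Pool.Agent.H4.Singer.L2HomologyZero (lkG Q x) i) :
    L2HomologyZero ((star Q x).cover ()) i := by
  classical
  obtain ⟨e, he⟩ := exists_equiv Q x
  intro ν hν z hz hdz ε hε
  let emb : {v // v ∈ Q.lab x} ↪ V := Function.Embedding.subtype _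
  have hsub : ∀ σ' : Finset {v // v ∈ Q.lab x}, σ'.map emb ⊆ Q.lab x := by
    intro σ' v hv
    obtain ⟨u, -, rfl⟩ := mem_map.1 hv
    exact u.2
  -- the functions on the two sides
  have hzc : Pool.Agent.H4.Singer.IsL2Chain (lkG Q x) i
      (fun σ' w => z (σ'.map emb) (e w)) := by
    refine ⟨fun σ' w hw => ?_, fun σ' v hv w => ?_, fun σ' => ?_⟩
    · obtain ⟨-, h2, h3⟩ := hz.supp _ _ hw
      rw [card_map] at h3
      refine ⟨?_, h3⟩
      intro a ha b hb hab
      refine h2 ?_ ?_ fun h => hab (Subtype.ext h)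
      · exact mem_coe.2 (mem_map_of_mem emb (mem_coe.1 ha))
      · exact mem_coe.2 (mem_map_of_mem emb (mem_coe.1 hb))
    · show z (σ'.map emb) (e (w * _)) = - z (σ'.map emb) (e w)
      rw [he]
      exact hz.anti _ _ (hsub σ') v.1 (mem_map_of_mem emb hv)
    · exact (e.summable_iff (f := fun c => ‖z (σ'.map emb) c‖ ^ 2)).2 (hz.l2 _)
  -- the boundaries correspond
  have hbd : ∀ (f : Finset V → (star Q x).Cover () → ℂ),
      (∀ σ c, ¬ σ ⊆ Q.lab x → f σ c = 0) → ∀ (τ' : Finset {v // v ∈ Q.lab x})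
        (w : Pool.Agent.H4.Singer.RGrp (lkG Q x)),
      Pool.Agent.H4.Singer.dbd (fun v : {v // v ∈ Q.lab x} => ν v.1)
        (fun σ' w => f (σ'.map emb) (e w)) τ' w = bdry ν f (τ'.map emb) (e w) := by
    intro f hf τ' w
    unfold Pool.Agent.H4.Singer.dbd bdry
    have h1 : ∑ v ∈ (τ'.map emb)ᶜ, (-1 : ℂ) ^ ((τ'.map emb).filter fun u => ν u < ν v).card *
        f (insert v (τ'.map emb)) (e w) =
        ∑ v ∈ τ'ᶜ.map emb, (-1 : ℂ) ^ ((τ'.map emb).filter fun u => ν u < ν v).card *
        f (insert v (τ'.map emb)) (e w) := by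
      symm
      refine sum_subset ?_ ?_
      · intro v hv
        obtain ⟨u, hu, rfl⟩ := mem_map.1 hv
        rw [mem_compl] at hu ⊢
        intro h
        exact hu ((mem_map' emb).1 h)
      · intro v hv hv'
        rw [hf _ _ ?_, mul_zero]
        intro hs
        apply hv'
        have hv1 : v ∈ Q.lab x := hs (mem_insert_self _ _)
        refine mem_map.2 ⟨⟨v, hv1⟩, ?_, rfl⟩
        rw [mem_compl] at hv ⊢
        intro h
        exact hv (mem_map_of_mem emb h)
    rw [h1, sum_map]
    refine sum_congr rfl fun v _ => ?_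
    congr 2
    · rw [filter_map, card_map]
      rfl
    · show f ((insert v τ').map emb) (e w) = _
      rw [map_insert]
  have hdz' : Pool.Agent.H4.Singer.dbd (fun v : {v // v ∈ Q.lab x} => ν v.1)
      (fun σ' w => z (σ'.map emb) (e w)) = 0 := by
    funext τ' w
    rw [hbd z (fun σ c hσ => by
      by_contra hne
      exact hσ (hz.supp _ _ hne).1) τ' w, hdz]
    rfl
  obtain ⟨y, hy, hyε⟩ := h (fun v => ν v.1) (fun a b hab => Subtype.ext (hν hab)) _ hzc hdz' ε hε
  -- the chain on the cover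
  let Y : Finset V → (star Q x).Cover () → ℂ := fun σ c =>
    if σ ⊆ Q.lab x then y (σ.subtype (· ∈ Q.lab x)) (e.symm c) else 0
  have hYmap : ∀ σ' c, Y (σ'.map emb) c = y σ' (e.symm c) := by
    intro σ' c
    show (if σ'.map emb ⊆ Q.lab x then y ((σ'.map emb).subtype (· ∈ Q.lab x)) (e.symm c) else 0) = _
    rw [if_pos (hsub σ')]
    congr 2
    ext v
    rw [mem_subtype]
    exact mem_map' emb
  have hmapsub : ∀ σ : Finset V, σ ⊆ Q.lab x → (σ.subtype (· ∈ Q.lab x)).map emb = σ := by
    intro σ hσ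
    exact Finset.subtype_map_of_mem hσ
  have hYoff : ∀ σ c, ¬ σ ⊆ Q.lab x → Y σ c = 0 := fun σ c h => if_neg h
  refine ⟨Y, ⟨fun σ c hne => ?_, fun σ c hσ v hv => ?_, fun σ => ?_⟩, ?_⟩
  · have hσ : σ ⊆ Q.lab x := by
      by_contra h
      exact hne (hYoff σ c h)
    rw [← hmapsub σ hσ, hYmap] at hne
    obtain ⟨h1, h2⟩ := hy.supp _ _ hne
    refine ⟨hσ, ?_, ?_⟩
    · intro a ha b hb hab
      have h3 := h1 (mem_coe.2 ((mem_subtype (a := ⟨a, hσ ha⟩)).2 ha))
        (mem_coe.2 ((mem_subtype (a := ⟨b, hσ hb⟩)).2 hb)) (fun h => hab (congrArg Subtype.val h))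
      exact h3
    · rw [← hmapsub σ hσ, card_map]
      exact h2
  · have hσ' : σ ⊆ Q.lab x := hσ
    rw [← hmapsub σ hσ', hYmap, hYmap]
    have h1 := hy.anti (σ.subtype (· ∈ Q.lab x)) ⟨v, hσ' hv⟩ (mem_subtype.2 hv) (e.symm c)
    rw [← h1]
    congr 1
    apply e.injective
    rw [he]
    simp only [Equiv.apply_symm_apply]
    rfl
  · by_cases hσ : σ ⊆ Q.lab x
    · have h1 : (fun c => ‖Y σ c‖ ^ 2) =
          (fun w => ‖y (σ.subtype (· ∈ Q.lab x)) w‖ ^ 2) ∘ e.symm := by
        funext c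
        show ‖Y σ c‖ ^ 2 = _
        rw [← hmapsub σ hσ, hYmap]
        show _ = ‖y ((((σ.subtype (· ∈ Q.lab x)).map emb)).subtype (· ∈ Q.lab x)) (e.symm c)‖ ^ 2
        rw [hmapsub σ hσ]
      rw [h1]
      exact e.symm.summable_iff.2 (hy.l2 _)
    · have h1 : (fun c => ‖Y σ c‖ ^ 2) = fun _ => 0 := by
        funext c
        rw [hYoff σ c hσ, norm_zero, zero_pow two_ne_zero]
      rw [h1]
      exact summable_zero
  · refine lt_of_eq_of_lt ?_ hyε
    -- the sum over the sets
    have hoff : ∀ σ : Finset V, ¬ σ ⊆ Q.lab x → ∑' c, ‖z σ c - bdry ν Y σ c‖ ^ 2 = 0 := by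
      intro σ hσ
      have h1 : ∀ c, z σ c - bdry ν Y σ c = 0 := by
        intro c
        have h2 : z σ c = 0 := by
          by_contra hne
          exact hσ (hz.supp _ _ hne).1
        have h3 : bdry ν Y σ c = 0 := by
          unfold bdry
          refine sum_eq_zero fun v _ => ?_
          rw [hYoff _ _ fun h => hσ fun u hu => h (mem_insert_of_mem hu), mul_zero]
        rw [h2, h3, sub_zero]
      have h4 : (fun c => ‖z σ c - bdry ν Y σ c‖ ^ 2) = fun _ => (0 : ℝ) := by
        funext c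
        rw [h1, norm_zero, zero_pow two_ne_zero]
      rw [h4, tsum_zero]
    have hsum : ∑ σ : Finset V, ∑' c, ‖z σ c - bdry ν Y σ c‖ ^ 2 =
        ∑ σ' : Finset {v // v ∈ Q.lab x}, ∑' c, ‖z (σ'.map emb) c - bdry ν Y (σ'.map emb) c‖ ^ 2 := by
      rw [← sum_image (s := univ) (g := fun σ' : Finset {v // v ∈ Q.lab x} => σ'.map emb)
        (f := fun σ => ∑' c, ‖z σ c - bdry ν Y σ c‖ ^ 2)
        (fun a _ b _ hab => Finset.map_injective emb hab)]
      symm
      refine sum_subset (subset_univ _) fun σ _ hσ => hoff σ fun h => hσ ?_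
      exact mem_image.2 ⟨σ.subtype (· ∈ Q.lab x), mem_univ _, hmapsub σ h⟩
    rw [hsum]
    refine sum_congr rfl fun σ' _ => ?_
    rw [← e.tsum_eq (fun c => ‖z (σ'.map emb) c - bdry ν Y (σ'.map emb) c‖ ^ 2)]
    refine tsum_congr fun w => ?_
    have h1 := hbd Y hYoff σ' w
    have h2 : (fun (σ' : Finset {v // v ∈ Q.lab x}) w => Y (σ'.map emb) (e w)) = y := by
      funext σ' w
      rw [hYmap, Equiv.symm_apply_apply]
    rw [h2] at h1
    rw [h1]

end Pool.Agent.H85.LG
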