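import Pool.Agent.H17LG.ModLREG
import Pool.Agent.H17LG.Defs

/-!
# Orders of top forms along a prime divisor
-/

set_option autoImplicit false

open Pool.Agent.H23 (RatForm regularForms PrimeDivisorOver dualDer dualDer_apply dualDer_coord fc
  fc_ιMulti mem_regularForms_iff valRing)
open Pool.Agent.H17LG (exists_logDivisorCoords)

noncomputable section

namespace Pool.Agent.H85.LG

/-- the order of a determinant -/
theorem ord_det_ge {K : Type} [Field K] {n : ℕ} (v : AddValuation K (WithTop ℤ))
    (M : Matrix (Fin n) (Fin n) K) (c : Fin n → WithTop ℤ) (h : ∀ i j, c j ≤ v (M i j)) :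
    ∑ j, c j ≤ v M.det := by
  rw [Matrix.det_apply]
  refine AddValuation.map_le_sum v fun σ _ => ?_
  have h1 : v (Equiv.Perm.sign σ • ∏ i, M (σ i) i) = v (∏ i, M (σ i) i) := by
    rcases Int.units_eq_one_or (Equiv.Perm.sign σ) with h | h
    · rw [h, one_smul]
    · rw [h, Units.neg_smul, one_smul, v.map_neg]
  rw [h1]
  have h2 : ∀ s : Finset (Fin n), ∑ j ∈ s, c j ≤ v (∏ i ∈ s, M (σ i) i) := by
    intro s
    induction s using Finset.cons_induction with
    | empty => simp
    | cons a s ha ih =>
      rw [Finset.sum_cons, Finset.prod_cons, v.map_mul]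
      exact add_le_add (h _ _) ih
  exact h2 Finset.univ

variable {K : Type} [Field K] [Algebra ℂ K]

/-- Coordinates at a prime divisor, with the estimate `ord (da₀ ∧ ⋯ ∧ da_k) ≥ ∑ ord a_j - 1`. -/
theorem exists_coords [Algebra.EssFiniteType ℂ K] {k : ℕ} {z : Fin (k + 1) → K}
    (hz : IsTranscendenceBasis ℂ z) (E : PrimeDivisorOver K (k + 1)) :
    ∃ b : Module.Basis (Fin (k + 1)) K Ω[K⁄ℂ],
      (∀ ω : RatForm K (k + 1), ω ∈ regularForms (k + 1) E.localRing ↔ 0 ≤ E.ord (fc b ω)) ∧
      ∀ a : Fin (k + 1) → K, ∑ j, E.ord (a j) ≤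
        E.ord (fc b (exteriorPower.ιMulti K (k + 1) fun j => KaehlerDifferential.D ℂ K (a j))) + 1 := by
  obtain ⟨g, b, hb, hg0, hg, hreg, hlog1, hlog0⟩ := exists_logDivisorCoords hz E
  refine ⟨b, fun ω => ?_, fun a => ?_⟩
  · rw [mem_regularForms_iff E.localRing b hb hg hreg]
    exact Iff.rfl
  · rw [fc_ιMulti, Module.Basis.det_apply]
    obtain ⟨M, hM⟩ : ∃ M, M = b.toMatrix fun j => KaehlerDifferential.D ℂ K (a j) := ⟨_, rfl⟩
    rw [← hM]
    have hMe : ∀ i j, M i j = dualDer b i (a j) := by
      intro i j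
      rw [hM]
      rfl
    have h1 : E.ord (M.updateRow 0 (g 0 • M 0)).det = E.ord M.det + 1 := by
      rw [Matrix.det_updateRow_smul, Matrix.updateRow_eq_self, E.ord.map_mul, hg0, add_comm]
    rw [← h1]
    refine ord_det_ge E.ord _ _ fun i j => ?_
    by_cases hi : i = 0
    · subst hi
      rw [Matrix.updateRow_self, Pi.smul_apply, smul_eq_mul, hMe]
      exact hlog0 (a j)
    · rw [Matrix.updateRow_ne hi, hMe]
      exact hlog1 i hi (a j)

/-! ### Polynomials in a transcendence basis -/

/-- the differential of a polynomial -/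
theorem D_aeval {n : ℕ} (x : Fin n → K) (p : MvPolynomial (Fin n) ℂ) :
    KaehlerDifferential.D ℂ K (MvPolynomial.aeval x p) =
      ∑ i, MvPolynomial.aeval x (MvPolynomial.pderiv i p) • KaehlerDifferential.D ℂ K (x i) := by
  induction p using MvPolynomial.induction_on with
  | C a => simp
  | add p q hp hq =>
    rw [map_add, map_add, hp, hq, ← Finset.sum_add_distrib]
    refine Finset.sum_congr rfl fun i _ => ?_
    rw [map_add, map_add, add_smul]
  | mul_X p i hp =>
    rw [map_mul, MvPolynomial.aeval_X, Derivation.leibniz, hp, Finset.smul_sum]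
    have h1 : ∀ l, MvPolynomial.aeval x (MvPolynomial.pderiv l (p * MvPolynomial.X i)) •
        KaehlerDifferential.D ℂ K (x l) =
        (x i * MvPolynomial.aeval x (MvPolynomial.pderiv l p)) • KaehlerDifferential.D ℂ K (x l) +
        if l = i then MvPolynomial.aeval x p • KaehlerDifferential.D ℂ K (x l) else 0 := by
      intro l
      rw [MvPolynomial.pderiv_mul, map_add, map_mul, map_mul, MvPolynomial.aeval_X, add_smul,
        mul_comm (x i)]
      congr 1
      by_cases hl : l = i
      · subst hl
        rw [if_pos rfl, MvPolynomial.pderiv_X_self, map_one, mul_one]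
      · rw [if_neg hl, MvPolynomial.pderiv_X_of_ne (Ne.symm hl), map_zero, mul_zero, zero_smul]
    rw [Finset.sum_congr rfl fun l _ => h1 l, Finset.sum_add_distrib, Finset.sum_ite_eq',
      if_pos (Finset.mem_univ i), add_comm]
    congr 1
    refine Finset.sum_congr rfl fun l _ => ?_
    rw [smul_smul]

/-- `dx_0 ∧ ⋯ ∧ d(p(x)) ∧ ⋯ ∧ dx_k = (∂p/∂x_j)(x) dx_0 ∧ ⋯ ∧ dx_k` -/
theorem wedge_update {n : ℕ} (x : Fin n → K) (p : MvPolynomial (Fin n) ℂ) (j : Fin n) :
    exteriorPower.ιMulti K n (fun i =>
        KaehlerDifferential.D ℂ K (Function.update x j (MvPolynomial.aeval x p) i)) =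
      MvPolynomial.aeval x (MvPolynomial.pderiv j p) •
        exteriorPower.ιMulti K n fun i => KaehlerDifferential.D ℂ K (x i) := by
  have h1 : (fun i => KaehlerDifferential.D ℂ K (Function.update x j (MvPolynomial.aeval x p) i)) =
      Function.update (fun i => KaehlerDifferential.D ℂ K (x i)) j
        (KaehlerDifferential.D ℂ K (MvPolynomial.aeval x p)) := by
    funext i
    by_cases h : i = j
    · subst h
      rw [Function.update_self, Function.update_self]
    · rw [Function.update_of_ne h, Function.update_of_ne h]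
  rw [h1, D_aeval, AlternatingMap.map_update_sum]
  rw [Finset.sum_eq_single j]
  · rw [AlternatingMap.map_update_smul, Function.update_eq_self]
  · intro i _ hij
    rw [AlternatingMap.map_update_smul,
      (exteriorPower.ιMulti K n).map_eq_zero_of_eq _ (i := i) (j := j) ?_ hij, smul_zero]
    rw [Function.update_self, Function.update_of_ne hij]
  · intro h
    exact absurd (Finset.mem_univ j) h

end Pool.Agent.H85.LG
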