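import Pool.Agent.H85.LG.Ord

/-!
# The order of polynomials in a transcendence basis, and of algebraic functions

`A = ord (dx) + 1`: `ord p(x) ≤ deg p · A` (`ord_aeval_le`); a function `h` which is algebraic over `ℂ(x)` has
`ord h ≤ μ A` for all prime divisors at which `x` and `h` are regular, `μ` depends only on `h`
(`exists_ord_le`).
-/

set_option autoImplicit false

open Pool.Agent.H23 (RatForm regularForms PrimeDivisorOver fc)

noncomputable section

namespace Pool.Agent.H85.LG

section Poly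

variable {n : ℕ}

theorem totalDegree_pderiv_le (p : MvPolynomial (Fin n) ℂ) (j : Fin n) :
    (MvPolynomial.pderiv j p).totalDegree ≤ p.totalDegree - 1 := by
  classical
  rw [MvPolynomial.totalDegree, Finset.sup_le_iff]
  intro m hm
  have h1 : MvPolynomial.coeff m (MvPolynomial.pderiv j p) ≠ 0 := MvPolynomial.mem_support_iff.mp hm
  rw [MvPolynomial.coeff_pderiv] at h1
  have h2 : m + Finsupp.single j 1 ∈ p.support := by
    rw [MvPolynomial.mem_support_iff]
    intro h
    rw [h, zero_mul] at h1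
    exact h1 rfl
  have h3 := MvPolynomial.le_totalDegree h2
  rw [Finsupp.sum_add_index' (fun _ => rfl) (fun _ _ _ => rfl), Finsupp.sum_single_index rfl] at h3
  omega

theorem exists_pderiv_ne_zero (p : MvPolynomial (Fin n) ℂ) (hp : p.totalDegree ≠ 0) :
    ∃ j, MvPolynomial.pderiv j p ≠ 0 := by
  classical
  obtain ⟨m, hm, hmp⟩ : ∃ m ∈ p.support, m ≠ 0 := by
    by_contra hcon
    push Not at hcon
    apply hp
    rw [MvPolynomial.totalDegree, ← Nat.le_zero, Finset.sup_le_iff]
    intro m hm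
    rw [hcon m hm]
    simp
  obtain ⟨j, hj⟩ : ∃ j, m j ≠ 0 := by
    by_contra hcon
    push Not at hcon
    exact hmp (Finsupp.ext hcon)
  refine ⟨j, fun h0 => ?_⟩
  have h1 := MvPolynomial.coeff_pderiv (i := j) p (m - Finsupp.single j 1)
  rw [h0, MvPolynomial.coeff_zero] at h1
  have h2 : m - Finsupp.single j 1 + Finsupp.single j 1 = m := by
    refine tsub_add_cancel_of_le ?_
    rw [Finsupp.single_le_iff]
    omega
  rw [h2] at h1
  rcases mul_eq_zero.1 h1.symm with h3 | h3
  · exact MvPolynomial.mem_support_iff.1 hm h3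
  · exact Nat.cast_add_one_ne_zero _ h3

end Poly

variable {K : Type} [Field K] [Algebra ℂ K] {k : ℕ}

theorem ord_algebraMap (E : PrimeDivisorOver K k) {c : ℂ} (hc : c ≠ 0) :
    E.ord (algebraMap ℂ K c) = 0 := by
  have h1 := E.ord_const c
  have h2 := E.ord_const c⁻¹
  have h3 : E.ord (algebraMap ℂ K c) + E.ord (algebraMap ℂ K c⁻¹) = 0 := by
    rw [← E.ord.map_mul, ← map_mul, mul_inv_cancel₀ hc, map_one, E.ord.map_one]
  refine le_antisymm ?_ h1
  calc E.ord (algebraMap ℂ K c) ≤ E.ord (algebraMap ℂ K c) + E.ord (algebraMap ℂ K c⁻¹) :=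
        le_add_of_nonneg_right h2
    _ = 0 := h3

/-- the estimate (*) for a basis of the differentials -/
def LogBasis (E : PrimeDivisorOver K k) (b : Module.Basis (Fin k) K Ω[K⁄ℂ]) : Prop :=
  ∀ a : Fin k → K, ∑ j, E.ord (a j) ≤
    E.ord (fc b (exteriorPower.ιMulti K k fun j => KaehlerDifferential.D ℂ K (a j))) + 1

theorem LogBasis.nonneg {E : PrimeDivisorOver K k} {b : Module.Basis (Fin k) K Ω[K⁄ℂ]}
    (hb : LogBasis E b) {x : Fin k → K} (hx : ∀ i, 0 ≤ E.ord (x i)) :
    0 ≤ E.ord (fc b (exteriorPower.ιMulti K k fun j => KaehlerDifferential.D ℂ K (x j))) + 1 :=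
  (Finset.sum_nonneg fun i _ => hx i).trans (hb x)

theorem ord_aeval_le {E : PrimeDivisorOver K k} {b : Module.Basis (Fin k) K Ω[K⁄ℂ]}
    (hb : LogBasis E b) {x : Fin k → K} (hx : ∀ i, 0 ≤ E.ord (x i)) :
    ∀ (d : ℕ) (p : MvPolynomial (Fin k) ℂ), p ≠ 0 → p.totalDegree ≤ d →
      E.ord (MvPolynomial.aeval x p) ≤
        d • (E.ord (fc b (exteriorPower.ιMulti K k fun j => KaehlerDifferential.D ℂ K (x j))) + 1) := by
  intro d
  induction d with
  | zero =>
    intro p hp hd
    obtain ⟨c, rfl⟩ : ∃ c, p = MvPolynomial.C c :=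
      ⟨_, MvPolynomial.totalDegree_eq_zero_iff_eq_C.1 (Nat.le_zero.1 hd)⟩
    rw [zero_smul, MvPolynomial.aeval_C, ord_algebraMap]
    rintro rfl
    exact hp (by rw [map_zero])
  | succ d ih =>
    intro p hp hd
    by_cases h0 : p.totalDegree = 0
    · refine (ih p hp (by omega)).trans ?_
      rw [succ_nsmul]
      exact le_add_of_nonneg_right (hb.nonneg hx)
    · obtain ⟨j, hj⟩ := exists_pderiv_ne_zero p h0
      have h1 := ih _ hj ((totalDegree_pderiv_le p j).trans (by omega))
      have h2 := hb (Function.update x j (MvPolynomial.aeval x p))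
      rw [wedge_update, map_smul, smul_eq_mul, E.ord.map_mul, add_assoc] at h2
      have h3 : E.ord (MvPolynomial.aeval x p) ≤
          ∑ i, E.ord (Function.update x j (MvPolynomial.aeval x p) i) := by
        rw [← Finset.add_sum_erase _ _ (Finset.mem_univ j), Function.update_self]
        refine le_add_of_nonneg_right (Finset.sum_nonneg fun i hi => ?_)
        rw [Function.update_of_ne (Finset.ne_of_mem_erase hi)]
        exact hx i
      rw [succ_nsmul]
      exact h3.trans (h2.trans (add_le_add h1 le_rfl))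

/-- A function `h ≠ 0` which is algebraic over `ℂ(x)` satisfies `ord h ≤ ord C₀(x)` for a polynomial `C₀`, whenever `x`
and `h` are regular. -/
theorem exists_poly_ord_le {x : Fin k → K} (hx : IsTranscendenceBasis ℂ x) {h : K} (h0 : h ≠ 0) :
    ∃ p : MvPolynomial (Fin k) ℂ, p ≠ 0 ∧ ∀ v : AddValuation K (WithTop ℤ),
      (∀ c : ℂ, 0 ≤ v (algebraMap ℂ K c)) → (∀ i, 0 ≤ v (x i)) → 0 ≤ v h →
        v h ≤ v (MvPolynomial.aeval x p) := by
  obtain ⟨F, hF, hFh⟩ := Pool.Agent.H23.exists_poly_of_basis hx h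
  -- divide by a power of `X`
  obtain ⟨G, hG0, hGh⟩ : ∃ G : Polynomial (MvPolynomial (Fin k) ℂ), G.coeff 0 ≠ 0 ∧
      G.eval₂ (MvPolynomial.aeval x).toRingHom h = 0 := by
    obtain ⟨G, hG⟩ := Polynomial.exists_eq_pow_rootMultiplicity_mul_and_not_dvd F hF 0
    rw [map_zero, sub_zero] at hG
    refine ⟨G, fun h1 => hG.2 (Polynomial.X_dvd_iff.2 h1), ?_⟩
    rw [hG.1, Polynomial.eval₂_mul, Polynomial.eval₂_pow, Polynomial.eval₂_X] at hFh
    exact (mul_eq_zero.1 hFh).resolve_left (pow_ne_zero _ h0)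
  refine ⟨G.coeff 0, hG0, fun v hc hxv hh => ?_⟩
  have hp : ∀ p : MvPolynomial (Fin k) ℂ, 0 ≤ v (MvPolynomial.aeval x p) := by
    intro p
    induction p using MvPolynomial.induction_on with
    | C a =>
      rw [MvPolynomial.aeval_C]
      exact hc a
    | add p q hp hq =>
      rw [map_add]
      exact v.map_le_add hp hq
    | mul_X p i hp =>
      rw [map_mul, MvPolynomial.aeval_X, v.map_mul]
      exact add_nonneg hp (hxv i)
  have h1 : G.eval₂ (MvPolynomial.aeval x).toRingHom h =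
      MvPolynomial.aeval x (G.coeff 0) +
        h * G.divX.eval₂ (MvPolynomial.aeval x).toRingHom h := by
    conv_lhs => rw [← Polynomial.divX_mul_X_add G]
    rw [Polynomial.eval₂_add, Polynomial.eval₂_mul, Polynomial.eval₂_X, Polynomial.eval₂_C]
    rw [add_comm, mul_comm]
    rfl
  rw [h1] at hGh
  have h2 : 0 ≤ v (G.divX.eval₂ (MvPolynomial.aeval x).toRingHom h) := by
    rw [Polynomial.eval₂_eq_sum_range]
    refine AddValuation.map_le_sum v fun i _ => ?_
    rw [v.map_mul, v.map_pow]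
    exact add_nonneg (hp _) (nsmul_nonneg hh i)
  rw [eq_neg_of_add_eq_zero_left hGh, v.map_neg, v.map_mul]
  exact le_add_of_nonneg_right h2

/-- **Bounded orders of algebraic functions.** -/
theorem exists_ord_le {x : Fin k → K} (hx : IsTranscendenceBasis ℂ x) {h : K} (h0 : h ≠ 0) :
    ∃ μ : ℕ, ∀ (E : PrimeDivisorOver K k) (b : Module.Basis (Fin k) K Ω[K⁄ℂ]), LogBasis E b →
      (∀ i, 0 ≤ E.ord (x i)) → 0 ≤ E.ord h → E.ord h ≤
        μ • (E.ord (fc b (exteriorPower.ιMulti K k fun j => KaehlerDifferential.D ℂ K (x j))) + 1) := by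
  obtain ⟨p, hp, h1⟩ := exists_poly_ord_le hx h0
  exact ⟨p.totalDegree, fun E b hb hxE hhE =>
    (h1 E.ord E.ord_const hxE hhE).trans (ord_aeval_le hb hxE _ p hp le_rfl)⟩

end Pool.Agent.H85.LG
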